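import Pool.Agent.Y398.KZ.Stm

set_option autoImplicit false

namespace Pool.Agent.Y349.KZ

open Pool.Agent.Y398.KZ

lemma card_Icc_le (α β : ℝ) (n : ℕ) (h : β - α + 1 ≤ n) :
    (Finset.Icc ⌈α⌉ ⌊β⌋).card ≤ n := by
  rw [Int.card_Icc, Int.toNat_le]
  have h1 := Int.floor_le β
  have h2 := Int.le_ceil α
  have h3 : ((⌊β⌋ + 1 - ⌈α⌉ : ℤ) : ℝ) ≤ ((n : ℤ) : ℝ) := by
    push_cast
    linarith
  exact_mod_cast h3

lemma w_ge (j : ℕ) (h : 1 ≤ j) : (8 : ℝ) ≤ w j := by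
  rw [w_cast]
  have := pow_le_pow_right₀ (by norm_num : (1 : ℝ) ≤ 8) h
  linarith

/-- slopes -/
noncomputable def Ta (t : ℕ → ℤ → ℤ) (z : ℂ) (j : ℕ) : Finset ℤ := by
  classical
  exact (Finset.Icc (-(2 * q j)) (2 * q j)).filter fun a =>
    ∃ b : ℤ, |z.im - sl j a * z.re - ic t j a b| ≤ 4

/-- intercepts -/
noncomputable def Tb (t : ℕ → ℤ → ℤ) (z : ℂ) (j : ℕ) (a : ℤ) : Finset ℤ :=
  Finset.Icc ⌈(z.im - sl j a * z.re - t j a - 4) / w j⌉ ⌊(z.im - sl j a * z.re - t j a + 4) / w j⌋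

/-- points -/
noncomputable def Ti (z : ℂ) (j : ℕ) (a : ℤ) : Finset ℤ :=
  Finset.Icc ⌈(N j : ℝ) * (z.re * rt (sl j a) - 9 / 4)⌉ ⌊(N j : ℝ) * (z.re * rt (sl j a) + 9 / 4)⌋

lemma card_Ta {C : ℕ} {t : ℕ → ℤ → ℤ} (h : GoodT C t) (z : ℂ) (j : ℕ) (hj : 1 ≤ j) :
    (Ta t z j).card ≤ C * (j + 1) ^ 2 := by
  classical
  have h1 := (h j hj).2 z.re z.im
  have h2 : ((Ta t z j : Finset ℤ) : Set ℤ) =
      {a : ℤ | |a| ≤ 2 * q j ∧ ∃ b : ℤ, |z.im - sl j a * z.re - ic t j a b| ≤ 4} := by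
    ext a
    rw [Ta]
    simp only [Finset.coe_filter, Finset.mem_Icc, Set.mem_setOf_eq, abs_le]
  rw [← h2, Set.ncard_coe_finset] at h1
  exact h1

lemma card_Tb (t : ℕ → ℤ → ℤ) (z : ℂ) (j : ℕ) (a : ℤ) (hj : 1 ≤ j) : (Tb t z j a).card ≤ 2 := by
  apply card_Icc_le
  have hw := w_ge j hj
  have hw0 : (0 : ℝ) < w j := by linarith
  rw [← sub_div]
  have h1 : (z.im - sl j a * z.re - t j a + 4 - (z.im - sl j a * z.re - t j a - 4)) / (w j : ℝ) =
      8 / w j := by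
    congr 1; ring
  rw [h1]
  have h2 : (8 : ℝ) / w j ≤ 1 := by rw [div_le_one hw0]; exact hw
  push_cast
  linarith

lemma card_Ti (z : ℂ) (j : ℕ) (a : ℤ) (hj : 1 ≤ j) : (Ti z j a).card ≤ 6 * (j + 1) ^ 2 := by
  apply card_Icc_le
  push_cast
  rw [N_cast]
  have h1 : (1 : ℝ) ≤ j := by exact_mod_cast hj
  nlinarith

/-- The road vertices of level at most `J` near `z`, with mirror `h`. -/
lemma mem_cover {t : ℕ → ℤ → ℤ} {z : ℂ} {j : ℕ} {a b i : ℤ} {h : Bool}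
    (hO : (⟨h, j, a, b, i⟩ : Rd).Ok) (hz : ‖(⟨h, j, a, b, i⟩ : Rd).p t - z‖ ≤ 1) :
    a ∈ Ta t z j ∧ b ∈ Tb t z j a ∧ i ∈ Ti z j a := by
  classical
  obtain ⟨hj, ha⟩ := hO
  change 1 ≤ j at hj
  change |a| ≤ 2 * q j at ha
  set m := sl j a with hm
  set X : ℝ := ((i : ℝ) / (N j : ℝ)) / rt m with hX
  have hp : (⟨h, j, a, b, i⟩ : Rd).p t = ⟨X, m * X + ic t j a b⟩ := rfl
  rw [hp] at hz
  have hre : |X - z.re| ≤ 1 := (Complex.abs_re_le_norm _).trans hz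
  have him : |m * X + ic t j a b - z.im| ≤ 1 := (Complex.abs_im_le_norm _).trans hz
  have hm2 : |m| ≤ 2 := sl_le j a ha
  have hmX : |m * (X - z.re)| ≤ 2 := by
    rw [abs_mul]
    calc |m| * |X - z.re| ≤ 2 * 1 := mul_le_mul hm2 hre (abs_nonneg _) (by norm_num)
      _ = 2 := by norm_num
  rw [abs_le] at him hmX hre
  have h4 : |z.im - m * z.re - ic t j a b| ≤ 4 := by
    rw [abs_le]
    constructor <;> nlinarith
  have hw0 := w_pos j
  refine ⟨?_, ?_, ?_⟩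
  · rw [Ta, Finset.mem_filter, Finset.mem_Icc]
    exact ⟨abs_le.mp ha, b, h4⟩
  · rw [Tb, Finset.mem_Icc, Int.ceil_le, Int.le_floor, div_le_iff₀ hw0, le_div_iff₀ hw0]
    rw [abs_le] at h4
    unfold ic at h4
    constructor <;> linarith
  · rw [Ti, Finset.mem_Icc, Int.ceil_le, Int.le_floor]
    have hN := N_pos j
    have hrt := rt_pos m
    have hrt2 : rt m ≤ 9 / 4 := rt_le m hm2
    have hi : (i : ℝ) = (N j : ℝ) * (X * rt m) := by rw [hX]; field_simp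
    rw [hi]
    have h5 : (X - z.re) * rt m ≤ 9 / 4 := by nlinarith
    have h6 : -(9 / 4) ≤ (X - z.re) * rt m := by nlinarith
    constructor
    · exact mul_le_mul_of_nonneg_left (by linarith) hN.le
    · exact mul_le_mul_of_nonneg_left (by linarith) hN.le

open Classical in
/-- The cover. -/
noncomputable def cov (t : ℕ → ℤ → ℤ) (z : ℂ) (J : ℕ) (h : Bool) : Finset Rd :=
  (Finset.Icc 1 J).biUnion fun j => (Ta t z j).biUnion fun a => (Tb t z j a).biUnion fun b =>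
    (Ti z j a).image fun i => (⟨h, j, a, b, i⟩ : Rd)

lemma card_cov {C : ℕ} {t : ℕ → ℤ → ℤ} (hG : GoodT C t) (z : ℂ) (J : ℕ) (h : Bool) :
    (cov t z J h).card ≤ 12 * C * (J + 1) ^ 5 := by
  classical
  have h1 : (cov t z J h).card ≤ (Finset.Icc 1 J).card *
      (C * (J + 1) ^ 2 * (2 * (6 * (J + 1) ^ 2))) := by
    refine Finset.card_biUnion_le_card_mul _ _ _ fun j hj => ?_
    rw [Finset.mem_Icc] at hj
    have hjJ : (j + 1) ^ 2 ≤ (J + 1) ^ 2 := Nat.pow_le_pow_left (by omega) 2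
    refine (Finset.card_biUnion_le_card_mul _ _ (2 * (6 * (J + 1) ^ 2)) fun a _ => ?_).trans
      (Nat.mul_le_mul_right _ ((card_Ta hG z j hj.1).trans (Nat.mul_le_mul_left _ hjJ)))
    refine (Finset.card_biUnion_le_card_mul _ _ (6 * (J + 1) ^ 2) fun b _ => ?_).trans
      (Nat.mul_le_mul_right _ (card_Tb t z j a hj.1))
    exact Finset.card_image_le.trans ((card_Ti z j a hj.1).trans (Nat.mul_le_mul_left _ hjJ))
  rw [Nat.card_Icc, Nat.add_sub_cancel] at h1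
  refine h1.trans ?_
  have h2 : J * (C * (J + 1) ^ 2 * (2 * (6 * (J + 1) ^ 2))) ≤
      (J + 1) * (C * (J + 1) ^ 2 * (2 * (6 * (J + 1) ^ 2))) :=
    Nat.mul_le_mul_right _ (Nat.le_succ J)
  refine h2.trans (le_of_eq ?_)
  ring

theorem t_COUNT : S_COUNT := by
  classical
  intro C t hG
  refine ⟨24 * C, fun z J => ?_⟩
  have hsub : {v : Rd | v.Ok ∧ v.j ≤ J ∧ ‖v.po t - z‖ ≤ 1} ⊆
      ((cov t z J false ∪ cov t (swp z) J true : Finset Rd) : Set Rd) := by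
    rintro ⟨h, j, a, b, i⟩ ⟨hO, hJ, hz⟩
    change j ≤ J at hJ
    have hj : 1 ≤ j := hO.1
    rw [Finset.mem_coe, Finset.mem_union]
    cases h with
    | false =>
      left
      have hz' : ‖(⟨false, j, a, b, i⟩ : Rd).p t - z‖ ≤ 1 := hz
      obtain ⟨h1, h2, h3⟩ := mem_cover hO hz'
      rw [cov, Finset.mem_biUnion]
      refine ⟨j, Finset.mem_Icc.mpr ⟨hj, hJ⟩, ?_⟩
      rw [Finset.mem_biUnion]
      refine ⟨a, h1, ?_⟩
      rw [Finset.mem_biUnion]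
      refine ⟨b, h2, ?_⟩
      rw [Finset.mem_image]
      exact ⟨i, h3, rfl⟩
    | true =>
      right
      have hz' : ‖(⟨true, j, a, b, i⟩ : Rd).p t - swp z‖ ≤ 1 := by
        have h1 : ‖swp ((⟨true, j, a, b, i⟩ : Rd).p t) - z‖ ≤ 1 := hz
        have h2 : swp ((⟨true, j, a, b, i⟩ : Rd).p t) - z =
            swp ((⟨true, j, a, b, i⟩ : Rd).p t - swp z) := by
          rw [swp_sub, swp_swp]
        rw [h2, norm_swp] at h1
        exact h1
      obtain ⟨h1, h2, h3⟩ := mem_cover hO hz'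
      rw [cov, Finset.mem_biUnion]
      refine ⟨j, Finset.mem_Icc.mpr ⟨hj, hJ⟩, ?_⟩
      rw [Finset.mem_biUnion]
      refine ⟨a, h1, ?_⟩
      rw [Finset.mem_biUnion]
      refine ⟨b, h2, ?_⟩
      rw [Finset.mem_image]
      exact ⟨i, h3, rfl⟩
  refine ⟨(Finset.finite_toSet _).subset hsub, ?_⟩
  refine (Set.ncard_le_ncard hsub (Finset.finite_toSet _)).trans ?_
  rw [Set.ncard_coe_finset]
  refine (Finset.card_union_le _ _).trans ?_
  have h1 := card_cov hG z J false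
  have h2 := card_cov hG (swp z) J true
  calc _ ≤ 12 * C * (J + 1) ^ 5 + 12 * C * (J + 1) ^ 5 := Nat.add_le_add h1 h2
    _ = 24 * C * (J + 1) ^ 5 := by ring

end Pool.Agent.Y349.KZ
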