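import Pool.Agent.Y398.KZ.Stm

set_option autoImplicit false

namespace Pool.Agent.Y349.KZ

open Pool.Agent.Y398.KZ

lemma dt_add (z z' : ℂ) (μ : ℝ) : dt (z + z') μ = dt z μ + dt z' μ := by
  unfold dt
  rw [← add_div, Complex.add_re, Complex.add_im]
  congr 1
  ring

lemma dt_neg (z : ℂ) (μ : ℝ) : dt (-z) μ = -dt z μ := by
  unfold dt
  rw [← neg_div, Complex.neg_re, Complex.neg_im]
  congr 1
  ring

lemma dt_sub (z z' : ℂ) (μ : ℝ) : dt (z - z') μ = dt z μ - dt z' μ := by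
  rw [sub_eq_add_neg, dt_add, dt_neg, sub_eq_add_neg]

lemma dt_le (z : ℂ) (μ : ℝ) : dt z μ ≤ ‖z‖ := by
  unfold dt
  rw [div_le_iff₀ (rt_pos μ)]
  apply le_of_sq_le_sq
  · rw [mul_pow, rt_sq, Complex.sq_norm, Complex.normSq_apply]
    nlinarith [sq_nonneg (z.im - μ * z.re)]
  · have := rt_pos μ
    positivity

lemma exists_level (D : ℝ) (hD : 2048 ≤ D) : ∃ K : ℕ, 1 ≤ K ∧ 8 * s K ≤ D ∧ D < 8 * s (K + 1) := by
  have hex : ∃ n : ℕ, D < 8 * s n := by
    obtain ⟨n, hn⟩ := exists_nat_gt D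
    refine ⟨n, ?_⟩
    have h1 : (n : ℝ) ≤ s n := by
      unfold s
      have h2 : (1 : ℝ) ≤ 64 ^ n := one_le_pow₀ (by norm_num)
      have h3 : (0 : ℝ) ≤ n := by positivity
      nlinarith [mul_le_mul_of_nonneg_right h2 (by positivity : (0 : ℝ) ≤ ((n : ℝ) + 1) ^ 2)]
    have h4 := s_pos n
    linarith
  classical
  let M := Nat.find hex
  have hM : D < 8 * s M := Nat.find_spec hex
  have hM0 : M ≠ 0 := by
    intro h
    rw [h, s_zero] at hM
    linarith
  have hM1 : M ≠ 1 := by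
    intro h
    rw [h, s_one] at hM
    linarith
  obtain ⟨K, hK⟩ : ∃ K, M = K + 1 := ⟨M - 1, by omega⟩
  refine ⟨K, by omega, ?_, by rwa [← hK]⟩
  have := Nat.find_min hex (m := K) (by change K < M; omega)
  exact not_lt.mp this

theorem t_MAINH (hCOS : S_COS) (hTOPRUN : S_TOPRUN) (hSEL : S_SEL) (hCLIMB : S_CLIMB) :
    S_MAINH := by
  intro t x y hxy hD
  set D := y.re - x.re with hDdef
  have hD0 : 0 < D := by linarith
  set μ : ℝ := (y.im - x.im) / D with hμ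
  have hμD : y.im - x.im = μ * D := by rw [hμ]; field_simp
  have hμ1 : |μ| ≤ 1 := by
    rw [hμ, abs_div, abs_of_pos hD0, div_le_one hD0]
    exact hxy
  obtain ⟨K0, hK0, hK1, hK2⟩ := exists_level D hD
  set K := K0 + 1 with hK
  have hqK := q_pos K
  have hBK := B_pos K
  have hwK := w_pos K
  have hsK := s_pos K
  have hinvq := inv_q K
  have hweq := w_eq K
  obtain ⟨a, b, ha, hm0, hm1, hdx1, hdx2⟩ := hSEL t x μ 0 1 hμ1 (Or.inl rfl) le_rfl (by norm_num)
    K (by omega)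
  set m := sl K a with hm
  set c := ic t K a b with hc
  simp only [Int.cast_one, one_mul, zero_add] at hm0 hm1
  have hDq : D * (1 / (q K : ℝ)) ≤ w K / 4 := by
    rw [hinvq, hweq]
    have h1 : D * (B K / 256) ≤ 8 * s K * (B K / 256) :=
      mul_le_mul_of_nonneg_right hK2.le (by positivity)
    linarith
  have hdy : m * y.re + c - y.im = m * x.re + c - x.im + (m - μ) * D := by
    have h1 : y.re = x.re + D := by rw [hDdef]; ring
    have h2 : y.im = x.im + μ * D := by linarith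
    rw [h1, h2]; ring
  have hmD : (m - μ) * D ≤ w K / 4 := by
    have h1 : (m - μ) * D ≤ 1 / (q K : ℝ) * D := mul_le_mul_of_nonneg_right hm1 hD0.le
    linarith
  have hmD0 : 0 ≤ (m - μ) * D := mul_nonneg hm0 hD0.le
  have hinv0 : 0 < 1 / (q K : ℝ) := by positivity
  obtain ⟨p, i, n1, hpO, hpj, hph, hpx, hc1, hx1, hx2, hn1⟩ := hCLIMB t x μ 1 hμ1 (Or.inl rfl) K
    (by omega) a b ha (by simp only [Int.cast_one, one_mul]; linarith)
    (by simp only [Int.cast_one, one_mul]; linarith) hdx1 (by linarith)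
  obtain ⟨p', i', n3, hpO', hpj', hph', hpy, hc3, hy1, hy2, hn3⟩ := hCLIMB t y μ (-1) hμ1
    (Or.inr rfl) K (by omega) a b ha (by push_cast; linarith) (by push_cast; linarith)
    (by rw [hdy]; linarith) (by rw [hdy]; linarith)
  simp only [Int.cast_one, one_mul] at hx1 hx2 hn1
  push_cast at hy1 hy2 hn3
  set v : Rd := ⟨false, K, a, b, i⟩ with hv
  set v' : Rd := ⟨false, K, a, b, i'⟩ with hv'
  have hvO : v.Ok := ⟨(by omega : 1 ≤ K), ha⟩
  have hK01 : K - 1 = K0 := by omega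
  rw [hK01] at hx2 hy2
  -- the length of the top run
  have hrt := rt_pos m
  have hrt1 := one_le_rt m
  have hrt2 : rt m ≤ 9 / 4 := rt_le m (sl_le K a ha)
  have hN := N_pos K
  have hvx : v.x = ((i : ℝ) / (N K : ℝ)) / rt m := rfl
  have hvx' : v'.x = ((i' : ℝ) / (N K : ℝ)) / rt m := rfl
  set L : ℤ := i' - i with hL
  set ell : ℝ := (L : ℝ) / (N K : ℝ) with hell
  have hellx : v'.x - v.x = ell / rt m := by
    rw [hvx, hvx', hell, hL, Int.cast_sub]
    field_simp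
  have hellx' : ell = (v'.x - v.x) * rt m := by
    rw [hellx]; field_simp
  have hΔ1 : 2 * s K0 - 2 ≤ v'.x - v.x := by linarith
  have hΔ2 : v'.x - v.x ≤ D + 2 := by linarith
  have hs0 := s_ge K0 hK0
  have hΔ0 : 0 ≤ v'.x - v.x := by linarith
  have hell1 : 2 * s K0 - 2 ≤ ell := by
    rw [hellx']
    have h1 : (v'.x - v.x) * 1 ≤ (v'.x - v.x) * rt m := mul_le_mul_of_nonneg_left hrt1 hΔ0
    linarith
  have hell0 : 0 ≤ ell := by linarith
  have hNle : (N K : ℝ) ≤ 2 * s K0 - 2 := by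
    rw [N_cast, hK]
    unfold s
    have h1 : (64 : ℝ) ^ 1 ≤ 64 ^ K0 := pow_le_pow_right₀ (by norm_num) hK0
    have h2 : (1 : ℝ) ≤ K0 := by exact_mod_cast hK0
    push_cast
    have h3 := mul_le_mul_of_nonneg_right h1 (by positivity : (0 : ℝ) ≤ ((K0 : ℝ) + 1) ^ 2)
    nlinarith
  have hNL : (N K) ^ 2 ≤ L := by
    have h1 : ((N K : ℤ) : ℝ) * (N K : ℝ) ≤ (N K : ℝ) * ell :=
      mul_le_mul_of_nonneg_left (hNle.trans hell1) hN.le
    have h2 : (N K : ℝ) * ell = (L : ℝ) := by rw [hell]; field_simp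
    have h3 : (((N K) ^ 2 : ℤ) : ℝ) ≤ (L : ℝ) := by push_cast; nlinarith
    exact_mod_cast h3
  obtain ⟨n2, hc2, hn2⟩ := hTOPRUN t v L hvO hNL
  have hmv : v.mv L = v' := by
    rw [hv, hv', Rd.mv, hL]
    simp
  rw [hmv] at hc2
  have hn2' : (n2 : ℝ) ≤ ell + 1 := hn2
  -- the gain
  have hB1 := B_le K (by omega)
  have hmμ : |m - μ| ≤ 1 / 2 := by
    rw [abs_of_nonneg hm0]
    linarith
  have hcos := (hCOS m μ hμ1 hmμ).1
  have hdtv : dt (v'.p t - v.p t) μ = ell * ((1 + m * μ) / (rt m * rt μ)) := by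
    have h1 : (v'.p t - v.p t) = ⟨v'.x - v.x, m * (v'.x - v.x)⟩ := by
      apply Complex.ext
      · rfl
      · change (m * v'.x + c) - (m * v.x + c) = m * (v'.x - v.x)
        ring
    rw [h1]
    unfold dt
    have hrtμ := rt_pos μ
    rw [hellx]
    field_simp
  have hell2 : ell ≤ 19 * s K := by
    rw [hellx']
    have h1 : (v'.x - v.x) * rt m ≤ (D + 2) * (9 / 4) := by
      apply mul_le_mul hΔ2 hrt2 hrt.le (by linarith)
    have h2 := s_ge K (by omega)
    linarith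
  have hsq : (m - μ) ^ 2 ≤ (B K / 256) ^ 2 := by
    rw [← hinvq]
    exact pow_le_pow_left₀ hm0 hm1 2
  have hloss : ell * (m - μ) ^ 2 ≤ 1 := by
    have h1 : ell * (m - μ) ^ 2 ≤ 19 * s K * (B K / 256) ^ 2 :=
      mul_le_mul hell2 hsq (sq_nonneg _) (by positivity)
    have h2 : 19 * s K * (B K / 256) ^ 2 = 19 / 65536 * (s K * B K ^ 2) := by ring
    rw [h2, s_mul_B_sq] at h1
    have h3 : (64 : ℝ) / ((K : ℝ) + 1) ^ 2 ≤ 64 := by
      apply div_le_self (by norm_num)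
      have : (0 : ℝ) ≤ K := by positivity
      nlinarith
    linarith
  have hdt1 : ell - 1 ≤ dt (v'.p t - v.p t) μ := by
    rw [hdtv]
    have h1 : ell * (1 - (m - μ) ^ 2) ≤ ell * ((1 + m * μ) / (rt m * rt μ)) :=
      mul_le_mul_of_nonneg_left hcos hell0
    linarith
  -- assembly
  refine ⟨p, p', n1 + n2 + n3, hpO, hpO', hpj, hpj', hph, hph', hpx, hpy,
    (hc1.trans hc2).trans hc3.symm, ?_⟩
  have hK840 : 840 * (1 - 1 / (K : ℝ)) ≤ 840 := by
    have : 0 ≤ 1 / (K : ℝ) := by positivity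
    linarith
  have hsum : dt (v.p t - p.p t) μ + dt (v'.p t - v.p t) μ - dt (v'.p t - p'.p t) μ =
      dt (p'.p t - p.p t) μ := by
    rw [dt_sub, dt_sub, dt_sub, dt_sub]; ring
  have hle := dt_le (p'.p t - p.p t) μ
  have hnorm : ‖p'.p t - p.p t‖ ≤ ‖x - y‖ + 50 := by
    have e : p'.p t - p.p t = (p'.p t - y) + (-(x - y)) + (-(p.p t - x)) := by ring
    rw [e]
    refine (norm_add₃_le).trans ?_
    rw [norm_neg, norm_neg]
    linarith
  push_cast
  linarith

end Pool.Agent.Y349.KZ
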